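import Pool.Agent.WidthCov.Planar

/-!
# The width covariogram determines every planar convex body

For a unit vector `z` of the Euclidean plane, `w_z(S)` is the length of the shadow of `S` on the
line spanned by `z`, and the `w_z`-covariogram of a convex body `K` is `x ↦ w_z (K ∩ (K + x))`.
We prove that two planar convex bodies with the same `w_z`-covariogram (for one fixed `z`) agree up
to a translation and a point reflection.  This is the whole case `φ = w_z` of Q1.
-/

open Set
open scoped Pointwise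

namespace Pool.Agent.Results.MP_75cf25_gt.WidthCovariogram

/-- The Euclidean plane. -/
abbrev Plane := EuclideanSpace ℝ (Fin 2)

/-- The width of `S` in direction `z`: the difference between the supremum and the infimum of
`⟨z, x⟩` over `x ∈ S`; it is `0` for the empty set. -/
noncomputable def width (z : Plane) (S : Set Plane) : ℝ :=
  sSup ((fun x => inner ℝ z x) '' S) - sInf ((fun x => inner ℝ z x) '' S)

/-- The `w_z`-covariogram of `K`: the width of `K ∩ (K + x)` in direction `z`. -/
noncomputable def widthCovariogram (z : Plane) (K : Set Plane) (x : Plane) : ℝ :=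
  width z (K ∩ (x +ᵥ K))

/-- The coordinates adapted to `z`: the second one is `⟨z, p⟩`. -/
noncomputable def coords (z : Plane) (hz : z 0 ^ 2 + z 1 ^ 2 = 1) : Plane ≃ₗ[ℝ] ℝ × ℝ where
  toFun p := (-(z 1) * p 0 + z 0 * p 1, z 0 * p 0 + z 1 * p 1)
  map_add' p q := by
    ext
    · simp only [PiLp.add_apply, Prod.mk_add_mk]; ring
    · simp only [PiLp.add_apply, Prod.mk_add_mk]; ring
  map_smul' c p := by
    ext
    · simp only [PiLp.smul_apply, smul_eq_mul, RingHom.id_apply, Prod.smul_mk]; ring
    · simp only [PiLp.smul_apply, smul_eq_mul, RingHom.id_apply, Prod.smul_mk]; ring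
  invFun q := !₂[-(z 1) * q.1 + z 0 * q.2, z 0 * q.1 + z 1 * q.2]
  left_inv p := by
    ext i
    fin_cases i
    · show -(z 1) * (-(z 1) * p 0 + z 0 * p 1) + z 0 * (z 0 * p 0 + z 1 * p 1) = p 0
      linear_combination (p 0) * hz
    · show z 0 * (-(z 1) * p 0 + z 0 * p 1) + z 1 * (z 0 * p 0 + z 1 * p 1) = p 1
      linear_combination (p 1) * hz
  right_inv q := by
    ext
    · show -(z 1) * (-(z 1) * q.1 + z 0 * q.2) + z 0 * (z 0 * q.1 + z 1 * q.2) = q.1
      linear_combination q.1 * hz
    · show z 0 * (-(z 1) * q.1 + z 0 * q.2) + z 1 * (z 0 * q.1 + z 1 * q.2) = q.2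
      linear_combination q.2 * hz

lemma coords_snd (z : Plane) (hz : z 0 ^ 2 + z 1 ^ 2 = 1) (p : Plane) :
    (coords z hz p).2 = inner ℝ z p := by
  rw [PiLp.inner_apply, Fin.sum_univ_two]
  show z 0 * p 0 + z 1 * p 1 = _
  simp [mul_comm]

lemma hExt_image (z : Plane) (hz : z 0 ^ 2 + z 1 ^ 2 = 1) (S : Set Plane) :
    Pool.Agent.WidthCov.hExt (coords z hz '' S) = width z S := by
  have : Prod.snd '' (coords z hz '' S) = (fun x => inner ℝ z x) '' S := by
    rw [image_image]
    simp_rw [coords_snd]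
  rw [Pool.Agent.WidthCov.hExt, this, width]

lemma image_vadd_eq (Φ : Plane ≃ₗ[ℝ] ℝ × ℝ) (x : Plane) (K : Set Plane) :
    Φ '' (x +ᵥ K) = Φ x +ᵥ (Φ '' K) := by
  ext q
  rw [mem_vadd_set_iff_neg_vadd_mem]
  constructor
  · rintro ⟨p, hp, rfl⟩
    rw [mem_vadd_set_iff_neg_vadd_mem] at hp
    exact ⟨_, hp, by simp⟩
  · rintro ⟨p, hp, hpq⟩
    refine ⟨x + p, ?_, ?_⟩
    · rw [mem_vadd_set_iff_neg_vadd_mem]
      simpa using hp
    · rw [map_add, hpq]; simp

lemma image_neg_eq (Φ : Plane ≃ₗ[ℝ] ℝ × ℝ) (K : Set Plane) : Φ '' (-K) = -(Φ '' K) := by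
  ext q
  rw [Set.mem_neg]
  constructor
  · rintro ⟨p, hp, rfl⟩
    exact ⟨-p, hp, by simp⟩
  · rintro ⟨p, hp, hpq⟩
    refine ⟨-p, by simpa using hp, ?_⟩
    rw [map_neg, hpq, neg_neg]

/-- **Theorem.** Let `z` be a unit vector of the plane.  If two planar convex bodies `K`, `H` have
the same `w_z`-covariogram then `H` is a translate of `K` or of `-K`. -/
theorem result (z : Plane) (hz : ‖z‖ = 1) (K H : Set Plane)
    (hK : Convex ℝ K) (hKc : IsCompact K) (hKi : (interior K).Nonempty)
    (hH : Convex ℝ H) (hHc : IsCompact H) (hHi : (interior H).Nonempty)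
    (hg : ∀ x : Plane, widthCovariogram z K x = widthCovariogram z H x) :
    ∃ t : Plane, H = t +ᵥ K ∨ H = t +ᵥ (-K) := by
  have hz' : z 0 ^ 2 + z 1 ^ 2 = 1 := by
    have := EuclideanSpace.real_norm_sq_eq z
    rw [hz, Fin.sum_univ_two] at this
    linarith
  set Φ := coords z hz' with hΦ
  have hcont : Continuous Φ := Φ.toContinuousLinearEquiv.continuous
  have hopen : ∀ S : Set Plane, (interior S).Nonempty → (interior (Φ '' S)).Nonempty := by
    intro S hS
    have h1 : IsOpen (Φ '' interior S) :=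
      Φ.toContinuousLinearEquiv.toHomeomorph.isOpenMap _ isOpen_interior
    exact (hS.image Φ).mono (interior_maximal (image_mono interior_subset) h1)
  have hinter : ∀ (S : Set Plane) (x : Plane),
      Φ '' (S ∩ (x +ᵥ S)) = Φ '' S ∩ (Φ x +ᵥ (Φ '' S)) := by
    intro S x
    rw [image_inter Φ.injective, image_vadd_eq]
  have hplanar := Pool.Agent.WidthCov.planar (K := Φ '' K) (H := Φ '' H)
    (hK.linear_image Φ.toLinearMap) (hKc.image hcont) (hopen K hKi)
    (hH.linear_image Φ.toLinearMap) (hHc.image hcont) (hopen H hHi)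
    (by
      intro x
      obtain ⟨y, rfl⟩ := Φ.surjective x
      rw [← hinter, ← hinter, hΦ, hExt_image, hExt_image]
      exact hg y)
  obtain ⟨t, ht⟩ := hplanar
  obtain ⟨s, rfl⟩ := Φ.surjective t
  refine ⟨s, ?_⟩
  rcases ht with h | h
  · left
    rw [← image_vadd_eq] at h
    exact Φ.injective.image_injective h
  · right
    rw [← image_neg_eq, ← image_vadd_eq] at h
    exact Φ.injective.image_injective h

end Pool.Agent.Results.MP_75cf25_gt.WidthCovariogram
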